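import Pool.Agent.Helper5.GB.St

/-!
# Module Lin of project GB: open intervals are homeomorphic to the line
-/

set_option autoImplicit false

open Set Filter Topology
open Pool.Agent.Helper5.GB

noncomputable section

namespace Pool.Agent.Helper53.GB

theorem hLin : StLin := by
  intro I s0 s1 hI hIo h0 h1 h01
  have hI' := hI
  -- the order isomorphism of the line with the unit interval
  obtain ⟨θ, hθm, hθs, hθr⟩ : ∃ θ : ℝ → ℝ, StrictMono θ ∧ (∀ y, -1 < y → y < 1 → ∃ x, θ x = y) ∧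
      ∀ x, -1 < θ x ∧ θ x < 1 := by
    have h : ℝ ≃o Ioo (-1 : ℝ) 1 := orderIsoIooNegOneOne ℝ
    refine ⟨fun x => (h x : ℝ), fun x y hxy => h.strictMono hxy, fun y hy1 hy2 => ?_,
      fun x => ⟨(h x).2.1, (h x).2.2⟩⟩
    obtain ⟨x, hx⟩ := h.surjective ⟨y, hy1, hy2⟩
    exact ⟨x, congrArg Subtype.val hx⟩
  set J : Set ℝ := θ '' I with hJ
  have hJne : J.Nonempty := ⟨θ s0, s0, h0, rfl⟩
  have hJb : BddBelow J := ⟨-1, by rintro _ ⟨x, -, rfl⟩; exact (hθr x).1.le⟩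
  have hJa : BddAbove J := ⟨1, by rintro _ ⟨x, -, rfl⟩; exact (hθr x).2.le⟩
  set α : ℝ := sInf J with hα
  set β : ℝ := sSup J with hβ
  -- no least and no largest element
  have hlo : ∀ x ∈ I, ∃ y ∈ I, y < x := by
    intro x hx
    obtain ⟨ε, hε, hb⟩ := Metric.isOpen_iff.1 hIo x hx
    refine ⟨x - ε / 2, hb ?_, by linarith⟩
    rw [Metric.mem_ball, Real.dist_eq, abs_lt]
    constructor <;> linarith
  have hhi : ∀ x ∈ I, ∃ y ∈ I, x < y := by
    intro x hx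
    obtain ⟨ε, hε, hb⟩ := Metric.isOpen_iff.1 hIo x hx
    refine ⟨x + ε / 2, hb ?_, by linarith⟩
    rw [Metric.mem_ball, Real.dist_eq, abs_lt]
    constructor <;> linarith
  have hαl : ∀ x ∈ I, α < θ x := by
    intro x hx
    obtain ⟨y, hy, hyx⟩ := hlo x hx
    exact (csInf_le hJb ⟨y, hy, rfl⟩).trans_lt (hθm hyx)
  have hβl : ∀ x ∈ I, θ x < β := by
    intro x hx
    obtain ⟨y, hy, hyx⟩ := hhi x hx
    exact (hθm hyx).trans_le (le_csSup hJa ⟨y, hy, rfl⟩)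
  have hαβ : α < β := (hαl s0 h0).trans (hβl s0 h0)
  have hsub : ∀ z, α < z → z < β → ∃ x ∈ I, θ x = z := by
    intro z hz1 hz2
    obtain ⟨_, ⟨a, ha, rfl⟩, haz⟩ := exists_lt_of_csInf_lt hJne hz1
    obtain ⟨_, ⟨b, hb, rfl⟩, hbz⟩ := exists_lt_of_lt_csSup hJne hz2
    obtain ⟨w, rfl⟩ := hθs z ((hθr a).1.trans haz) (hbz.trans (hθr b).2)
    exact ⟨w, hI.out ha hb ⟨(hθm.lt_iff_lt.1 haz).le, (hθm.lt_iff_lt.1 hbz).le⟩, rfl⟩
  -- the affine map
  have hd : 0 < β - α := by linarith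
  obtain ⟨E⟩ : Nonempty (I ≃o ℝ) := by
    have hmem : ∀ x : I, 2 * (θ x - α) / (β - α) - 1 ∈ Ioo (-1 : ℝ) 1 := by
      intro x
      have h2 := hαl x x.2
      have h3 := hβl x x.2
      constructor
      · have : 0 < 2 * (θ x - α) / (β - α) := div_pos (by linarith) hd
        linarith
      · have : 2 * (θ x - α) / (β - α) < 2 := by
          rw [div_lt_iff₀ hd]; linarith
        linarith
    have hsm : StrictMono (fun x : I => (⟨2 * (θ x - α) / (β - α) - 1, hmem x⟩ : Ioo (-1 : ℝ) 1)) := by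
      intro x y hxy
      have h2 : θ x < θ y := hθm hxy
      show 2 * (θ x - α) / (β - α) - 1 < 2 * (θ y - α) / (β - α) - 1
      have : 2 * (θ x - α) / (β - α) < 2 * (θ y - α) / (β - α) := by
        apply div_lt_div_of_pos_right _ hd
        linarith
      linarith
    have hsu : Function.Surjective
        (fun x : I => (⟨2 * (θ x - α) / (β - α) - 1, hmem x⟩ : Ioo (-1 : ℝ) 1)) := by
      rintro ⟨y, hy1, hy2⟩
      obtain ⟨x, hx, hxz⟩ := hsub ((y + 1) / 2 * (β - α) + α)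
        (by have : 0 < (y + 1) / 2 * (β - α) := mul_pos (by linarith) hd
            linarith)
        (by have : (y + 1) / 2 * (β - α) < 1 * (β - α) := mul_lt_mul_of_pos_right (by linarith) hd
            linarith)
      refine ⟨⟨x, hx⟩, Subtype.ext ?_⟩
      show 2 * (θ x - α) / (β - α) - 1 = y
      rw [hxz]
      field_simp
      ring
    exact ⟨(StrictMono.orderIsoOfSurjective _ hsm hsu).trans (orderIsoIooNegOneOne ℝ).symm⟩
  -- normalization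
  have hE : 0 < E ⟨s1, h1⟩ - E ⟨s0, h0⟩ := by
    have : E ⟨s0, h0⟩ < E ⟨s1, h1⟩ := E.strictMono h01
    linarith
  have hgm : StrictMono (fun x : I => (E x - E ⟨s0, h0⟩) / (E ⟨s1, h1⟩ - E ⟨s0, h0⟩)) := by
    intro x y hxy
    have h2 : E x < E y := E.strictMono hxy
    show (E x - E ⟨s0, h0⟩) / (E ⟨s1, h1⟩ - E ⟨s0, h0⟩) < (E y - E ⟨s0, h0⟩) / (E ⟨s1, h1⟩ - E ⟨s0, h0⟩)
    apply div_lt_div_of_pos_right _ hE
    linarith
  have hgs : Function.Surjective (fun x : I => (E x - E ⟨s0, h0⟩) / (E ⟨s1, h1⟩ - E ⟨s0, h0⟩)) := by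
    intro y
    refine ⟨E.symm (y * (E ⟨s1, h1⟩ - E ⟨s0, h0⟩) + E ⟨s0, h0⟩), ?_⟩
    show (E (E.symm (y * (E ⟨s1, h1⟩ - E ⟨s0, h0⟩) + E ⟨s0, h0⟩)) - E ⟨s0, h0⟩) /
      (E ⟨s1, h1⟩ - E ⟨s0, h0⟩) = y
    rw [OrderIso.apply_symm_apply]
    field_simp
    ring
  set G : I ≃o ℝ := StrictMono.orderIsoOfSurjective _ hgm hgs with hG
  have hG0 : G ⟨s0, h0⟩ = 0 := by
    show (E ⟨s0, h0⟩ - E ⟨s0, h0⟩) / (E ⟨s1, h1⟩ - E ⟨s0, h0⟩) = 0
    rw [sub_self, zero_div]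
  have hG1 : G ⟨s1, h1⟩ = 1 := by
    show (E ⟨s1, h1⟩ - E ⟨s0, h0⟩) / (E ⟨s1, h1⟩ - E ⟨s0, h0⟩) = 1
    exact div_self hE.ne'
  refine ⟨G.symm.toHomeomorph, ?_, ?_, ?_⟩
  · intro x y hxy
    exact G.symm.strictMono hxy
  · show G.symm 0 = ⟨s0, h0⟩
    rw [← hG0, OrderIso.symm_apply_apply]
  · show G.symm 1 = ⟨s1, h1⟩
    rw [← hG1, OrderIso.symm_apply_apply]

end Pool.Agent.Helper53.GB

end
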